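import Pool.Agent.N790.CM.G
import Pool.Agent.Results.MP_a1107e_nt.AlmostAllCurves

/-!
# MP_a1107e_nt: all elliptic curves near all multiples of Carmichael's function of almost all integers

Let `α`, `β` be nonzero real numbers. For all but `N ^ 5 / (log N) ^ U` of the pairs `(m, n)` with `m ≤ N ^ 2` and
`n ≤ N ^ 3`, and for ALL multiples `w ≤ N ^ (2 D)` of Carmichael's function `λ(m)` and ALL multiples `v ≤ N ^ (3 D)` of
`λ(n)`, `D = 1001 / 1000`, EVERY curve `y ^ 2 = x ^ 3 + A x + B` with integers `A` and `B` such that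
`|A - α w| ≤ w ^ (1 / 100)` and `|B - β v| ≤ v ^ (1 / 100)` has no integral point `(x, y)` with
`|x| ≤ exp (N ^ (1 / 3000))`: the Hall-Lang conjecture, with any constants, holds for these curves up to an exponentially
large height. More generally `w` and `v` are any common multiples of the values `f p` and `g p` at the large primes dividing
`m` and `n` exactly once, where `f` and `g` take each positive value at boundedly many primes.

By the starting theorem `AlmostAllCurves` there are at most `M R ^ (5 - 1 / 16)` curves with a point of this kind with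
`|A| ≤ R ^ 2`, `|B| ≤ R ^ 3`. This does not bound the number of the pairs `(m, n)`, since a number `w` can be a multiple of
`λ(m)` for very many `m`. The proof uses that outside a set of at most `N / (log N) ^ U` numbers `m ≤ N` every `w ≤ N ^ D` is
a common multiple for at most `N ^ δ` of the `m` (`N790/CM`).
-/

set_option autoImplicit false

namespace Pool.Agent.Results.MP_a1107e_nt.CarmichaelMultiples

open Pool.Agent.N790.CM (FewTimes Carries fewTimes_pred carries_carmichael near_boxes)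

/-- the curve `y ^ 2 = x ^ 3 + A x + B` has an integral point `(x, y)` with `|x| ≤ H` -/
def HasPoint (A B : ℤ) (H : ℝ) : Prop :=
  ∃ x y : ℤ, y ^ 2 = x ^ 3 + A * x + B ∧ |(x : ℝ)| ≤ H

/-- **All curves near all common multiples.** (1) Let `f`, `g` take each positive value at most `T` times at the primes,
let `α`, `β` be nonzero real numbers and `U` a natural number. For all large `N` all but at most `N ^ 5 / (log N) ^ U` of the
pairs `(m, n)`, `1 ≤ m ≤ N ^ 2`, `1 ≤ n ≤ N ^ 3`, are such that for ALL `w`, `v` with `1 ≤ w ≤ N ^ (2 D)`,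
`1 ≤ v ≤ N ^ (3 D)`, `D = 1001 / 1000`, which are divisible by `f p` (by `g p`) for all primes `p > exp (√(log N))` dividing
`m` (dividing `n`) exactly once, and for ALL integers `A`, `B` with `|A - α w| ≤ w ^ (1 / 100)` and
`|B - β v| ≤ v ^ (1 / 100)` the curve `y ^ 2 = x ^ 3 + A x + B` has no integral point with `|x| ≤ exp (N ^ (1 / 3000))`.
(2) `f p = p - 1` is such a function, and all multiples of Carmichael's function of `m` are such common multiples. -/
theorem result :
    (∀ (T : ℕ) (f g : ℕ → ℕ), FewTimes f T → FewTimes g T → ∀ α β : ℝ, α ≠ 0 → β ≠ 0 → ∀ U : ℕ, ∃ N₀ : ℕ, ∀ N : ℕ,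
      N₀ ≤ N → ({m : ℕ × ℕ | (1 ≤ m.1 ∧ m.1 ≤ N ^ 2) ∧ (1 ≤ m.2 ∧ m.2 ≤ N ^ 3) ∧ ∃ w v : ℕ,
        (1 ≤ w ∧ (w : ℝ) ≤ (N : ℝ) ^ ((1001 : ℝ) / 500) ∧ Carries f (Real.exp √(Real.log N)) m.1 w) ∧
        (1 ≤ v ∧ (v : ℝ) ≤ (N : ℝ) ^ ((3003 : ℝ) / 1000) ∧ Carries g (Real.exp √(Real.log N)) m.2 v) ∧ ∃ A B : ℤ,
        |A - α * w| ≤ (w : ℝ) ^ ((1 : ℝ) / 100) ∧ |B - β * v| ≤ (v : ℝ) ^ ((1 : ℝ) / 100) ∧
        HasPoint A B (Real.exp ((N : ℝ) ^ ((1 : ℝ) / 3000)))}.ncard : ℝ) ≤ (N : ℝ) ^ 5 / Real.log N ^ U) ∧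
    FewTimes (fun p => p - 1) 1 ∧
    ∀ (y : ℝ) (m w : ℕ), ArithmeticFunction.carmichael m ∣ w → Carries (fun p => p - 1) y m w := by
  refine ⟨?_, fewTimes_pred, carries_carmichael⟩
  intro T f g hf hg α β hα hβ U
  obtain ⟨M, hM⟩ := Pool.Agent.Results.MP_a1107e_nt.AlmostAllCurves.result
  obtain ⟨N₀, hN₀⟩ := near_boxes hf hg (p := 2) (q := 3) (s := 5 - (1 : ℝ) / 16)
    (κ := (1 : ℝ) / 100) (M := |M|) (D := 1001 / 1000) (by norm_num) (by norm_num) (by norm_num) (by norm_num)
    (by norm_num) (by norm_num) (abs_nonneg M)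
    (fun R => {P : ℤ × ℤ | HasPoint P.1 P.2 (Real.exp ((max R 0) ^ ((1 : ℝ) / 3000)))})
    (by
      rintro R R' hR P ⟨x, y, h1, h2⟩
      exact ⟨x, y, h1, h2.trans (Real.exp_le_exp.2 (Real.rpow_le_rpow (le_max_right _ _)
        (max_le_max hR le_rfl) (by norm_num)))⟩)
    (by
      intro R hR
      have e : max R 0 = R := max_eq_left (by linarith)
      simp only [e]
      obtain ⟨h1, h2⟩ := hM R hR
      refine ⟨h1, h2.trans ?_⟩
      gcongr
      exact le_abs_self M) hα hβ U
  refine ⟨N₀, fun N hN => ?_⟩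
  have h := hN₀ N hN
  have e : max (N : ℝ) 0 = N := max_eq_left (Nat.cast_nonneg _)
  simp only [e, Set.mem_ofPred_eq] at h
  norm_num at h ⊢
  exact h

end Pool.Agent.Results.MP_a1107e_nt.CarmichaelMultiples
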