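import Pool.Agent.N680.TA.Near
import Pool.Agent.N733.TG.I
import Pool.Agent.Results.MP_a1107e_nt.AlmostAllCurves

/-!
# MP_a1107e_nt: all elliptic curves near values of multiplicative functions

Let `f`, `g` be multiplicative functions of polynomial growth which are injective and at most linear at the
large primes, for instance Euler's function or the sum of the divisors, and let `α`, `β` be nonzero real
numbers.  For all but `N ^ 5 / (log N) ^ U` of the pairs `(m, n)` with `m ≤ N ^ 2` and `n ≤ N ^ 3`, EVERY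
curve `y ^ 2 = x ^ 3 + A x + B` with integers `A` and `B` such that `|A - α f(m)| ≤ f(m) ^ (1 / 100)` and
`|B - β g(n)| ≤ g(n) ^ (1 / 100)` has no integral point `(x, y)` with `|x| ≤ exp (N ^ (1 / 3000))`: the
Hall-Lang conjecture, with any constants, holds for these curves up to an exponentially large height.

By the starting theorem `AlmostAllCurves` there are at most `M R ^ (5 - 1 / 16)` curves with a point of this
kind with `|A| ≤ R ^ 2`, `|B| ≤ R ^ 3`.  This does not bound the number of the pairs `(m, n)`, since the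
values of `f` and `g` have large multiplicities (`φ` takes some values `v` more than `v ^ (7 / 10)` times,
and almost all integers are no values of `φ` or `σ`).  The proof uses the theorem `avoid1` of helper733
(such functions avoid sets with a power saving) and a version for pairs in boxes with different sides.
-/

set_option autoImplicit false

namespace Pool.Agent.Results.MP_a1107e_nt.MultiplicativeValues

/-- a positive multiplicative function of polynomial growth; at the large primes `p` it is injective and at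
most `M p` -/
structure LM (f : ℕ → ℕ) : Prop where
  mul : ∀ m n : ℕ, Nat.Coprime m n → f (m * n) = f m * f n
  pos : ∀ m : ℕ, 1 ≤ m → 1 ≤ f m
  growth : ∃ C D : ℕ, ∀ m : ℕ, 1 ≤ m → f m ≤ C * m ^ D
  prime : ∃ P M : ℕ, ∀ p : ℕ, P ≤ p → p.Prime → f p ≤ M * p ∧ ∀ q : ℕ, P ≤ q → q.Prime → f q = f p → q = p

/-- the curve `y ^ 2 = x ^ 3 + A x + B` has an integral point `(x, y)` with `|x| ≤ H` -/
def HasPoint (A B : ℤ) (H : ℝ) : Prop :=
  ∃ x y : ℤ, y ^ 2 = x ^ 3 + A * x + B ∧ |(x : ℝ)| ≤ H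

lemma lm {f : ℕ → ℕ} (hf : LM f) : Pool.Agent.N733.TG.LM f := ⟨hf.mul, hf.pos, hf.growth, hf.prime⟩

/-- **All curves near values of multiplicative functions.**  (1) Let `f`, `g` satisfy `LM`, `α`, `β` nonzero
real numbers and `U` a natural number.  For all large `N` all but at most `N ^ 5 / (log N) ^ U` of the pairs
`(m, n)`, `1 ≤ m ≤ N ^ 2`, `1 ≤ n ≤ N ^ 3`, are such that for ALL integers `A`, `B` with
`|A - α f(m)| ≤ f(m) ^ (1 / 100)` and `|B - β g(n)| ≤ g(n) ^ (1 / 100)` the curve
`y ^ 2 = x ^ 3 + A x + B` has no integral point with `|x| ≤ exp (N ^ (1 / 3000))`.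
(2) Euler's function and the sum of the divisors satisfy `LM`. -/
theorem result :
    (∀ f g : ℕ → ℕ, LM f → LM g → ∀ α β : ℝ, α ≠ 0 → β ≠ 0 → ∀ U : ℕ, ∃ N₀ : ℕ, ∀ N : ℕ, N₀ ≤ N →
      ({m : ℕ × ℕ | (1 ≤ m.1 ∧ m.1 ≤ N ^ 2) ∧ (1 ≤ m.2 ∧ m.2 ≤ N ^ 3) ∧ ∃ A B : ℤ,
        |A - α * f m.1| ≤ (f m.1 : ℝ) ^ ((1 : ℝ) / 100) ∧ |B - β * g m.2| ≤ (g m.2 : ℝ) ^ ((1 : ℝ) / 100) ∧
        HasPoint A B (Real.exp ((N : ℝ) ^ ((1 : ℝ) / 3000)))}.ncard : ℝ) ≤ (N : ℝ) ^ 5 / Real.log N ^ U) ∧
    LM Nat.totient ∧ LM (fun m => ∑ d ∈ m.divisors, d) := by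
  refine ⟨?_, ?_, ?_⟩
  · intro f g hf hg α β hα hβ U
    obtain ⟨M, hM⟩ := Pool.Agent.Results.MP_a1107e_nt.AlmostAllCurves.result
    obtain ⟨N₀, hN₀⟩ := Pool.Agent.N680.TA.near_boxes (lm hf) (lm hg) (p := 2) (q := 3) (s := 5 - (1 : ℝ) / 16)
      (κ := (1 : ℝ) / 100) (M := |M|) (by norm_num) (by norm_num) (by norm_num) (by norm_num) (by norm_num)
      (abs_nonneg M) (fun R => {P : ℤ × ℤ | HasPoint P.1 P.2 (Real.exp ((max R 0) ^ ((1 : ℝ) / 3000)))})
      (by
        rintro R R' hR P ⟨x, y, h1, h2⟩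
        exact ⟨x, y, h1, h2.trans (Real.exp_le_exp.2 (Real.rpow_le_rpow (le_max_right _ _)
          (max_le_max hR le_rfl) (by norm_num)))⟩)
      (by
        intro R hR
        have e : max R 0 = R := max_eq_left (by linarith)
        simp only [e]
        obtain ⟨h1, h2⟩ := hM R hR
        refine ⟨h1, h2.trans ?_⟩
        gcongr
        exact le_abs_self M) hα hβ U
    refine ⟨N₀, fun N hN => ?_⟩
    have h := hN₀ N hN
    have e : max (N : ℝ) 0 = N := max_eq_left (Nat.cast_nonneg _)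
    simp only [e, Set.mem_ofPred_eq] at h
    exact h
  · have h := Pool.Agent.N733.TG.lm_totient
    exact ⟨h.mul, h.pos, h.growth, h.prime⟩
  · have h := Pool.Agent.N733.TG.lm_sigma
    exact ⟨h.mul, h.pos, h.growth, h.prime⟩

end Pool.Agent.Results.MP_a1107e_nt.MultiplicativeValues
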