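import Pool.Agent.N575.PA.Pair
import Pool.Agent.Results.MP_a1107e_nt.AlmostAllCurves

/-!
# All elliptic curves near padic points

Let `p` be a prime and let `x`, `y` be padic integers. We consider the elliptic curves `Y ^ 2 = X ^ 3 + A X + B` with integers
`A`, `B` of the usual sizes, `|A| ≤ c N ^ 2` and `|B| ≤ c N ^ 3`, which are padically close to `(x, y)`:
`|x - A|_p ≤ c N ^ (-2 τ)`, `|y - B|_p ≤ c N ^ (-3 τ)`. For `τ = 1` and `c = 1` examples are the truncations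
`A = x mod p ^ (2 n)`, `B = y mod p ^ (3 n)` of the padic expansions (with `N = p ^ n`), a sequence with one curve for each power
of `p`. We show that for all `(x, y)` outside a set of Hausdorff dimension at most `1 / 3 + 79 / (48 τ)`, which is `2 - 1 / 48`
for `τ = 1`, and so for almost all `(x, y)`, the following holds: for all `c` and all large `N` ALL integral points `(X, Y)` of
ALL these curves satisfy `|X| > exp (N ^ (1 / 3000))`.

Proof. By the starting theorem `AlmostAllCurves` of this problem there are `O(N ^ (79 / 16))` exceptional pairs of this size. The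
set of the `(x, y)` which are close to one of them is a union of products of two padic balls of the radii `N ^ (-2 τ)` and
`N ^ (-3 τ)`, which are covered by `O(N ^ τ)` balls of radius `N ^ (-3 τ)`.
-/

set_option autoImplicit false

namespace Pool.Agent.Results.MP_a1107e_nt.PadicApproximations

/-- the residues modulo `p ^ n` of a padic integer `x`, as a natural number less than `p ^ n`, is at distance at most `p ^ (-n)`
from `x` -/
theorem truncation (p : ℕ) [Fact p.Prime] (x : ℤ_[p]) (n : ℕ) :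
    x.appr n < p ^ n ∧ ‖x - (((x.appr n : ℕ) : ℤ) : ℤ_[p])‖ ≤ ((p : ℝ) ^ n)⁻¹ := by
  refine ⟨PadicInt.appr_lt _ _, ?_⟩
  have h := PadicInt.appr_spec n x
  rw [← PadicInt.norm_le_pow_iff_mem_span_pow] at h
  simpa using h

/-- **All curves near padic points.** Let `p` be a prime and `τ > 0`. For all pairs `(x, y)` of padic integers outside a set of
Hausdorff dimension at most `1 / 3 + 79 / (48 τ)` (which is `2 - 1 / 48` for `τ = 1`; the dimension of the plane is `2`)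
(1) for all `c`, all large `N` and all integers `A`, `B` with `|A| ≤ c N ^ 2`, `|B| ≤ c N ^ 3`, `|x - A|_p ≤ c N ^ (-2 τ)` and
`|y - B|_p ≤ c N ^ (-3 τ)`: ALL integral points `(X, Y)` of `Y ^ 2 = X ^ 3 + A X + B` satisfy `|X| > exp (N ^ (1 / 3000))`;
(2) if `τ = 1`, then in particular for all large `n` this holds for the curve given by the truncations `A = x mod p ^ (2 n)`,
`B = y mod p ^ (3 n)` of the padic expansions, with `N = p ^ n`. -/
theorem result (p : ℕ) [Fact p.Prime] (τ : ℝ) (hτ : 0 < τ) :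
    ∃ E : Set (ℤ_[p] × ℤ_[p]), dimH E ≤ ENNReal.ofReal (1 / 3 + 79 / (48 * τ)) ∧
      ∀ x y : ℤ_[p], (x, y) ∉ E →
        (∀ c : ℝ, ∃ N₀ : ℕ, ∀ N : ℕ, N₀ ≤ N → ∀ A B : ℤ, |(A : ℝ)| ≤ c * (N : ℝ) ^ 2 → |(B : ℝ)| ≤ c * (N : ℝ) ^ 3 →
          ‖x - (A : ℤ_[p])‖ ≤ c * (N : ℝ) ^ (-(2 * τ)) → ‖y - (B : ℤ_[p])‖ ≤ c * (N : ℝ) ^ (-(3 * τ)) →
          ∀ X Y : ℤ, Y ^ 2 = X ^ 3 + A * X + B → Real.exp ((N : ℝ) ^ ((1 : ℝ) / 3000)) < |(X : ℝ)|) ∧
        (τ = 1 → ∃ n₀ : ℕ, ∀ n : ℕ, n₀ ≤ n →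
          ∀ X Y : ℤ, Y ^ 2 = X ^ 3 + (x.appr (2 * n) : ℤ) * X + (y.appr (3 * n) : ℤ) →
            Real.exp (((p : ℝ) ^ n) ^ ((1 : ℝ) / 3000)) < |(X : ℝ)|) := by
  obtain ⟨M, hM⟩ := Pool.Agent.Results.MP_a1107e_nt.AlmostAllCurves.result
  obtain ⟨E, h1, h2⟩ := Pool.Agent.N575.PA.pair_points p
    (P := fun z R => ∃ X Y : ℤ, Y ^ 2 = X ^ 3 + z.1 * X + z.2 ∧ |(X : ℝ)| ≤ Real.exp ((max R 0) ^ ((1 : ℝ) / 3000)))
    (fun z X Y hXY ⟨x, y, h1, h2⟩ => ⟨x, y, h1, h2.trans (Real.exp_le_exp.2 (Real.rpow_le_rpow (le_max_right _ _)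
      (max_le_max hXY le_rfl) (by norm_num)))⟩)
    (s := 5 - (1 : ℝ) / 16) (C := M) (by norm_num) (fun R hR => by
      have e : max R 0 = R := max_eq_left (by linarith)
      simp only [e]
      exact hM R hR) hτ
  have hmain : ∀ x y : ℤ_[p], (x, y) ∉ E →
        ∀ c : ℝ, ∃ N₀ : ℕ, ∀ N : ℕ, N₀ ≤ N → ∀ A B : ℤ, |(A : ℝ)| ≤ c * (N : ℝ) ^ 2 → |(B : ℝ)| ≤ c * (N : ℝ) ^ 3 →
          ‖x - (A : ℤ_[p])‖ ≤ c * (N : ℝ) ^ (-(2 * τ)) → ‖y - (B : ℤ_[p])‖ ≤ c * (N : ℝ) ^ (-(3 * τ)) →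
          ∀ X Y : ℤ, Y ^ 2 = X ^ 3 + A * X + B → Real.exp ((N : ℝ) ^ ((1 : ℝ) / 3000)) < |(X : ℝ)| := by
    intro x y hxy c
    obtain ⟨N₀, hN₀⟩ := h2 x y hxy c
    refine ⟨N₀, fun N hN A B hA hB hx hy X Y hXY => ?_⟩
    by_contra hcon
    push Not at hcon
    refine hN₀ N hN A B hA hB hx hy ⟨X, Y, hXY, ?_⟩
    rw [max_eq_left (Nat.cast_nonneg N)]
    exact hcon
  refine ⟨E, h1.trans (le_of_eq ?_), fun x y hxy => ⟨hmain x y hxy, fun hτ1 => ?_⟩⟩
  · congr 1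
    have : τ ≠ 0 := hτ.ne'
    field_simp
    ring
  · subst hτ1
    obtain ⟨N₀, hN₀⟩ := hmain x y hxy 1
    have hp : p.Prime := Fact.out
    refine ⟨N₀, fun n hn X Y hXY => ?_⟩
    have hpn : n ≤ p ^ n := (Nat.lt_pow_self hp.one_lt).le
    have hp0 : (0 : ℝ) < p := by exact_mod_cast hp.pos
    have hpow : ∀ j : ℕ, 1 * (((p ^ n : ℕ)) : ℝ) ^ j = (p : ℝ) ^ (j * n) := by
      intro j
      push_cast
      rw [one_mul, ← pow_mul, mul_comm]
    have hpow2 : ∀ j : ℕ, 1 * (((p ^ n : ℕ)) : ℝ) ^ (-((j : ℝ) * 1)) = ((p : ℝ) ^ (j * n))⁻¹ := by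
      intro j
      rw [← hpow j, one_mul, one_mul, mul_one, Real.rpow_neg (by positivity), Real.rpow_natCast]
    have hsz : ∀ (z : ℤ_[p]) (j : ℕ), |(((z.appr (j * n) : ℕ) : ℤ) : ℝ)| ≤ 1 * (((p ^ n : ℕ)) : ℝ) ^ j := by
      intro z j
      rw [hpow j]
      have h3 := (truncation p z (j * n)).1
      rw [abs_of_nonneg (by positivity)]
      exact_mod_cast h3.le
    have h4 := hN₀ (p ^ n) (hn.trans hpn) (x.appr (2 * n) : ℤ) (y.appr (3 * n) : ℤ) (hsz x 2) (hsz y 3)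
      (by rw [show (2 : ℝ) = ((2 : ℕ) : ℝ) by norm_num, hpow2 2]; exact (truncation p x (2 * n)).2)
      (by rw [show (3 : ℝ) = ((3 : ℕ) : ℝ) by norm_num, hpow2 3]; exact (truncation p y (3 * n)).2) X Y hXY
    push_cast at h4
    exact h4

end Pool.Agent.Results.MP_a1107e_nt.PadicApproximations
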