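import Pool.Agent.N284.DA.PairWin
import Pool.Agent.Results.MP_a1107e_nt.AlmostAllCurves

/-!
# All elliptic curves near pairs of denominators of good approximations

Let `α_1, …, α_m` and `β_1, …, β_n` be real numbers. We consider the pairs of positive integers `(p, q)` with `p ≤ N ^ 2`,
`q ≤ N ^ 3` and `‖p α_j - a_j‖ ≤ c N ^ (-2 τ)`, `‖q β_i - b_i‖ ≤ c N ^ (-3 σ)` for all `i`, `j`, `‖x‖` the distance to the
nearest integer. For `a = b = 0`, `τ = 1 / m`, `σ = 1 / n` these include the pairs of denominators of best simultaneous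
approximations (the denominators of the convergents for `m = n = 1`) which are of the order `N ^ 2` and `N ^ 3`; for
almost all `(α, β)` there are only `O((log N) ^ 2)` such pairs of denominators. We show for all `(α, β)` outside a
set of Hausdorff dimension at most `m + n - (2 m τ + 3 n σ - 79 d / 16 - 5 κ) / max (2 + 2 τ) (3 + 3 σ)` and all `c`: for
all large `N` and all such pairs `(p, q)`, EVERY elliptic curve `y ^ 2 = x ^ 3 + A x + B` with integers `A`, `B` such that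
`|A|` is within `N ^ (2 κ)` of `G p` and `|B|` within `N ^ (3 κ)` of `H q` has no integral point `(x, y)` with
`|x| ≤ exp (N ^ (d / 3000))`. Here `G` and `H` are functions with steps bounded below by a positive constant and of growth
at most `v ^ d`, for example `G v = H v = v`. For `τ = 1 / m` and `σ = 1 / n` the bound is less than `m + n` if
`79 d / 16 + 5 κ < 5`; and so the statement holds for almost all `(α, β)`.

Proof. By the starting theorem `AlmostAllCurves` the pairs `(p, q)` such that some exceptional curve is near `(G p, H q)`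
are `O(N ^ (79 d / 16 + 5 κ))` in number; and the `(α, β)` with the above inequalities for infinitely many pairs of such a
thin set are covered by few small cubes.
-/

set_option autoImplicit false

namespace Pool.Agent.Results.MP_a1107e_nt.SimultaneousApproximations

open Pool.Agent.N671.DA (Solves Expanding expanding_pow)

/-- **All curves near pairs of denominators of good approximations.** Let `G` and `H` have steps `≥ a > 0` and growth at
most `v ^ d`. Let `0 ≤ κ ≤ 1`, `τ, σ ≥ 0`, `a` in `ℝ ^ m` and `b` in `ℝ ^ n`. For all `(α, β)` in `ℝ ^ m × ℝ ^ n` outside a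
set of Hausdorff dimension at most `m + n - (2 m τ + 3 n σ - (79 / 16 d + 5 κ)) / max (2 + 2 τ) (3 + 3 σ)` and all `c`, for all
large `N` and all `1 ≤ p ≤ N ^ 2`, `1 ≤ q ≤ N ^ 3` with `‖p α_j - a_j‖ ≤ c N ^ (-2 τ)` and `‖q β_i - b_i‖ ≤ c N ^ (-3 σ)` for all
`i`, `j`: ALL integral points `(x, y)` of ALL curves `y ^ 2 = x ^ 3 + A x + B` with integers `A`, `B`, `||A| - G p| ≤ N ^ (2 κ)`
and `||B| - H q| ≤ N ^ (3 κ)`, satisfy `|x| > exp (N ^ (d / 3000))`. The functions `α v ^ d` with `α > 0`, `d ≥ 1` are examples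
of `G` and `H`. -/
theorem result :
    (∀ (G H : ℕ → ℝ) (d : ℝ), Expanding G d → Expanding H d → ∀ κ τ σ : ℝ, 0 ≤ κ → κ ≤ 1 → 0 ≤ τ → 0 ≤ σ →
      ∀ (m n : ℕ) (a : Fin m → ℝ) (b : Fin n → ℝ), ∃ E : Set ((Fin m → ℝ) × (Fin n → ℝ)),
        dimH E ≤ ENNReal.ofReal
          (m + n - (2 * m * τ + 3 * n * σ - (79 / 16 * d + 5 * κ)) / max (2 + 2 * τ) (3 + 3 * σ)) ∧
        ∀ α β, (α, β) ∉ E → ∀ c : ℝ, ∃ N₀ : ℕ, ∀ N : ℕ, N₀ ≤ N →
          ∀ p q : ℕ, 1 ≤ p → p ≤ N ^ 2 → 1 ≤ q → q ≤ N ^ 3 →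
          Solves α a p (c * (N : ℝ) ^ (-(2 * τ))) → Solves β b q (c * (N : ℝ) ^ (-(3 * σ))) →
          ∀ A B : ℤ, |(|(A : ℝ)| - G p)| ≤ (N : ℝ) ^ (2 * κ) → |(|(B : ℝ)| - H q)| ≤ (N : ℝ) ^ (3 * κ) →
            ∀ x y : ℤ, y ^ 2 = x ^ 3 + A * x + B → Real.exp ((N : ℝ) ^ (d / 3000)) < |(x : ℝ)|) ∧
    ∀ α d : ℝ, 0 < α → 1 ≤ d → Expanding (fun v => α * (v : ℝ) ^ d) d := by
  refine ⟨fun G H d hG hH κ τ σ hκ hκ1 hτ hσ m n a b => ?_, fun α d hα hd => expanding_pow hα hd⟩
  obtain ⟨M, hM⟩ := Pool.Agent.Results.MP_a1107e_nt.AlmostAllCurves.result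
  obtain ⟨E, h1, h2⟩ := Pool.Agent.N284.DA.pair_windows
    (P := fun z R => ∃ x y : ℤ, y ^ 2 = x ^ 3 + z.1 * x + z.2 ∧ |(x : ℝ)| ≤ Real.exp ((max R 0) ^ ((1 : ℝ) / 3000)))
    (fun z X Y hXY ⟨x, y, h1, h2⟩ => ⟨x, y, h1, h2.trans (Real.exp_le_exp.2 (Real.rpow_le_rpow (le_max_right _ _)
      (max_le_max hXY le_rfl) (by norm_num)))⟩)
    (s := 5 - (1 : ℝ) / 16) (C := M) (by norm_num) (fun R hR => by
      have e : max R 0 = R := max_eq_left (by linarith)
      simp only [e]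
      exact hM R hR) hG hH hκ hκ1 hτ hσ (w := max (2 + 2 * τ) (3 + 3 * σ)) (le_max_left _ _) (le_max_right _ _) a b
  refine ⟨E, h1.trans (le_of_eq ?_), fun α β hαβ c => ?_⟩
  · congr 4
    ring
  · obtain ⟨N₀, hN₀⟩ := h2 α β hαβ c
    refine ⟨N₀, fun N hN p q hp hpN hq hqN s1 s2 A B hA hB x y hxy => ?_⟩
    by_contra hcon
    push Not at hcon
    refine hN₀ N hN p q hp hpN hq hqN s1 s2 A B hA hB ⟨x, y, hxy, ?_⟩
    rw [max_eq_left (by positivity), ← Real.rpow_mul (Nat.cast_nonneg _), mul_one_div]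
    exact hcon

end Pool.Agent.Results.MP_a1107e_nt.SimultaneousApproximations
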